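import Pool.Agent.Lib_helper1.G5T.Final

set_option autoImplicit false

namespace Pool.Agent.Results.MP_022ed3_co.FiveHullVertices

/-- the Euclidean plane -/
abbrev Plane : Type := EuclideanSpace ℝ (Fin 2)

/-- general position: no three distinct points of the set are collinear -/
def GeneralPosition (P : Finset Plane) : Prop :=
  ∀ a ∈ P, ∀ b ∈ P, ∀ c ∈ P, a ≠ b → a ≠ c → b ≠ c → ¬ Collinear ℝ ({a, b, c} : Set Plane)

/-- the vertices of the convex hull of `S`: the points of `S` that are extreme points of the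
convex hull of `S` -/
def hullVertices (S : Finset Plane) : Set Plane :=
  {p | p ∈ S ∧ p ∈ Set.extremePoints ℝ (convexHull ℝ (S : Set Plane))}

/-- every set of `N` points in general position in the plane has a subset of `n` points whose
convex hull has at least `k` vertices -/
def Forces (k n N : ℕ) : Prop :=
  ∀ P : Finset Plane, P.card = N → GeneralPosition P →
    ∃ S : Finset Plane, S ⊆ P ∧ S.card = n ∧ k ≤ (hullVertices S).ncard

/-- `g k n`: the least such `N` -/
noncomputable def g (k n : ℕ) : ℕ := sInf {N : ℕ | Forces k n N}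

/-- the plane as a product -/
noncomputable def toProd : Plane ≃ₗ[ℝ] ℝ × ℝ :=
  (WithLp.linearEquiv 2 ℝ (Fin 2 → ℝ)).trans (LinearEquiv.finTwoArrow ℝ ℝ)

lemma hullVertices_eq (S : Finset Plane) :
    hullVertices S = Set.extremePoints ℝ (convexHull ℝ (S : Set Plane)) := by
  ext p
  refine ⟨fun h => h.2, fun h => ⟨?_, h⟩⟩
  exact_mod_cast extremePoints_convexHull_subset h

lemma collinear_map {V W : Type*} [AddCommGroup V] [Module ℝ V] [AddCommGroup W] [Module ℝ W]
    (f : V ≃ₗ[ℝ] W) {s : Set V} (h : Collinear ℝ s) : Collinear ℝ (f '' s) := by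
  rw [collinear_iff_exists_forall_eq_smul_vadd] at h ⊢
  obtain ⟨p, v, h⟩ := h
  refine ⟨f p, f v, ?_⟩
  rintro _ ⟨x, hx, rfl⟩
  obtain ⟨r, hr⟩ := h x hx
  exact ⟨r, by rw [hr]; simp⟩

lemma collinear_toProd (s : Set Plane) : Collinear ℝ (toProd '' s) ↔ Collinear ℝ s := by
  constructor
  · intro h
    have h1 := collinear_map toProd.symm h
    rwa [← Set.image_comp, show (⇑toProd.symm ∘ ⇑toProd) = id from by funext x; simp,
      Set.image_id] at h1
  · intro h
    exact collinear_map toProd h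

lemma forces_iff (k n N : ℕ) : Forces k n N ↔
    ∀ A : Finset (ℝ × ℝ), A.card = N →
      (∀ a ∈ A, ∀ b ∈ A, ∀ c ∈ A, a ≠ b → a ≠ c → b ≠ c →
        ¬ Collinear ℝ ({a, b, c} : Set (ℝ × ℝ))) →
      ∃ S ⊆ A, S.card = n ∧
        k ≤ (Set.extremePoints ℝ (convexHull ℝ (S : Set (ℝ × ℝ)))).ncard := by
  have key : ∀ S : Finset Plane,
      (Set.extremePoints ℝ (convexHull ℝ ((S.map toProd.toEquiv.toEmbedding : Finset (ℝ × ℝ)) :
        Set (ℝ × ℝ)))).ncard = (hullVertices S).ncard := by
    intro S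
    rw [hullVertices_eq, Finset.coe_map]
    have h1 : convexHull ℝ (⇑toProd.toEquiv.toEmbedding '' (S : Set Plane)) =
        ⇑toProd '' convexHull ℝ (S : Set Plane) :=
      (toProd.toLinearMap.image_convexHull (S : Set Plane)).symm
    rw [h1, ← image_extremePoints]
    exact Set.ncard_image_of_injective _ toProd.injective
  have col : ∀ a b c : Plane,
      Collinear ℝ ({toProd a, toProd b, toProd c} : Set (ℝ × ℝ)) ↔
        Collinear ℝ ({a, b, c} : Set Plane) := by
    intro a b c
    rw [← collinear_toProd {a, b, c}, Set.image_insert_eq, Set.image_insert_eq,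
      Set.image_singleton]
  constructor
  · intro h A hA hg
    obtain ⟨S, hS, hn, hk⟩ := h (A.map toProd.symm.toEquiv.toEmbedding) (by simpa using hA) (by
      intro a ha b hb c hc hab hac hbc
      rw [← col]
      rw [Finset.mem_map] at ha hb hc
      obtain ⟨a', ha', rfl⟩ := ha
      obtain ⟨b', hb', rfl⟩ := hb
      obtain ⟨c', hc', rfl⟩ := hc
      have := hg a' ha' b' hb' c' hc' (fun h => hab (by rw [h])) (fun h => hac (by rw [h]))
        (fun h => hbc (by rw [h]))
      simpa using this)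
    refine ⟨S.map toProd.toEquiv.toEmbedding, ?_, by simpa using hn, by rw [key]; exact hk⟩
    intro x hx
    rw [Finset.mem_map] at hx
    obtain ⟨y, hy, rfl⟩ := hx
    have h2 := hS hy
    rw [Finset.mem_map] at h2
    obtain ⟨z, hz, h3⟩ := h2
    rw [← h3]
    simpa using hz
  · intro h P hP hg
    obtain ⟨S, hS, hn, hk⟩ := h (P.map toProd.toEquiv.toEmbedding) (by simpa using hP) (by
      intro a ha b hb c hc hab hac hbc
      rw [Finset.mem_map] at ha hb hc
      obtain ⟨a', ha', rfl⟩ := ha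
      obtain ⟨b', hb', rfl⟩ := hb
      obtain ⟨c', hc', rfl⟩ := hc
      have := hg a' ha' b' hb' c' hc' (fun h => hab (by rw [h])) (fun h => hac (by rw [h]))
        (fun h => hbc (by rw [h]))
      rw [← col] at this
      exact this)
    refine ⟨S.map toProd.symm.toEquiv.toEmbedding, ?_, by simpa using hn, ?_⟩
    · intro x hx
      rw [Finset.mem_map] at hx
      obtain ⟨y, hy, rfl⟩ := hx
      have h2 := hS hy
      rw [Finset.mem_map] at h2
      obtain ⟨z, hz, h3⟩ := h2
      rw [← h3]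
      simpa using hz
    · rw [← key]
      have e : (S.map toProd.symm.toEquiv.toEmbedding).map toProd.toEquiv.toEmbedding = S := by
        ext x
        simp
      rw [e]
      exact hk

lemma forces_mono {k n N M : ℕ} (h : Forces k n N) (hNM : N ≤ M) : Forces k n M := by
  intro P hP hg
  obtain ⟨Q, hQ, hQc⟩ := Finset.exists_subset_card_eq (by omega : N ≤ P.card)
  obtain ⟨S, hS, hn, hk⟩ := h Q hQc
    (fun a ha b hb c hc => hg a (hQ ha) b (hQ hb) c (hQ hc))
  exact ⟨S, hS.trans hQ, hn, hk⟩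

/-- `g(5, n) = 2 n - 1` for every `n ≥ 5`; a number `N` forces an `n`-point subset with five hull
vertices exactly when `N ≥ 2 n - 1` -/
theorem result (n : ℕ) (hn : 5 ≤ n) :
    g 5 n = 2 * n - 1 ∧ ∀ N : ℕ, Forces 5 n N ↔ 2 * n - 1 ≤ N := by
  have h0 := Pool.Agent.G5.Tri.main_of_step Pool.Agent.G5.Tri.step_false n hn
  have h1 : Forces 5 n (2 * n - 1) := (forces_iff 5 n _).2 h0.1
  have h2 : ∀ N : ℕ, Forces 5 n N ↔ 2 * n - 1 ≤ N :=
    fun N => ⟨fun h => h0.2 ((forces_iff 5 n N).1 h), fun h => forces_mono h1 h⟩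
  refine ⟨?_, h2⟩
  have h3 : {N : ℕ | Forces 5 n N} = {N : ℕ | 2 * n - 1 ≤ N} := by
    ext N
    exact h2 N
  unfold g
  rw [h3]
  have h4 : (2 * n - 1) ∈ {N : ℕ | 2 * n - 1 ≤ N} := le_refl (2 * n - 1)
  exact le_antisymm (Nat.sInf_le h4) (Nat.sInf_mem (s := {N : ℕ | 2 * n - 1 ≤ N}) ⟨_, h4⟩)

end Pool.Agent.Results.MP_022ed3_co.FiveHullVertices
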